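import Pool.Agent.Work.MP_db9399_cg_helper54.EMBX

/-! # SW, block EMBS: the regular case implies the general case, polynomial scales (helper54) -/

set_option autoImplicit false

namespace Pool.Agent.Work.MP_db9399_cg.helper54

open Finset Classical
open Pool.Agent.Work.MP_db9399_all (nb)
open _root_.MP_db9399_co (IsTotalColoring)
open Pool.Agent.Work.MP_db9399_as.helper6

universe u

theorem LExp_mono {W : Type u} [Fintype W] (G : SimpleGraph W) (d : ℕ) (g g' M : ℝ)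
    (hg : g ≤ g') (h : LExp G d g' M) : LExp G d g M := by
  intro T U hT hU
  have hT0 : (0 : ℝ) ≤ T.card := Nat.cast_nonneg _
  have hd0 : (0 : ℝ) ≤ d := Nat.cast_nonneg _
  refine le_trans ?_ (h T U hT (hU.trans ?_))
  · gcongr
  · gcongr

theorem bigS (c0 c M : ℝ) (hc0 : 0 < c0) (hc : c = min (c0 / 3) (1 / 8)) (hM : 1 ≤ M) :
    ∃ d1 : ℕ, ∀ d : ℕ, d1 ≤ d →
      1 ≤ (d : ℝ) ∧ (d : ℝ) ^ (-c0) ≤ ((d : ℝ) ^ (-c)) ^ 2 / 64 ∧
      2 + Real.sqrt (2 * (M * d)) ≤ 3 * ((d : ℝ) ^ (-c)) ^ 2 / 64 * d := by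
  have h1 := (tendsto_rpow_atTop (show (0 : ℝ) < c0 / 3 by positivity)).eventually_ge_atTop 64
  have h2 := (tendsto_rpow_atTop (show (0 : ℝ) < 1 / 4 by norm_num)).eventually_ge_atTop
    (2 * Real.sqrt (2 * M) * (64 / 3))
  have h3 := (h1.and h2).and (Filter.eventually_ge_atTop (2 : ℝ))
  obtain ⟨x0, hx0⟩ := Filter.eventually_atTop.1 h3
  refine ⟨⌈x0⌉₊, fun d hd => ?_⟩
  obtain ⟨⟨h4, h5⟩, h6⟩ := hx0 d ((Nat.le_ceil _).trans (by exact_mod_cast hd))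
  have hdp : (0 : ℝ) < d := by linarith
  have hc1 : c ≤ c0 / 3 := hc ▸ min_le_left _ _
  have hc2 : c ≤ 1 / 8 := hc ▸ min_le_right _ _
  have hg2 : ((d : ℝ) ^ (-c)) ^ 2 = (d : ℝ) ^ (-(2 * c)) := by
    rw [← Real.rpow_natCast, ← Real.rpow_mul hdp.le]
    congr 1
    push_cast
    ring
  refine ⟨by linarith, ?_, ?_⟩
  · rw [hg2, le_div_iff₀ (by norm_num)]
    calc (d : ℝ) ^ (-c0) * 64 ≤ (d : ℝ) ^ (-c0) * (d : ℝ) ^ (c0 / 3) := by gcongr
      _ = (d : ℝ) ^ (-(2 * (c0 / 3))) := by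
          rw [← Real.rpow_add hdp]
          congr 1
          ring
      _ ≤ (d : ℝ) ^ (-(2 * c)) := Real.rpow_le_rpow_of_exponent_le (by linarith) (by linarith)
  · have h7 : (d : ℝ) ^ (3 / 4 : ℝ) ≤ ((d : ℝ) ^ (-c)) ^ 2 * d := by
      rw [hg2]
      nth_rewrite 3 [← Real.rpow_one (d : ℝ)]
      rw [← Real.rpow_add hdp]
      exact Real.rpow_le_rpow_of_exponent_le (by linarith) (by linarith)
    have h8 : (d : ℝ) ^ (3 / 4 : ℝ) = Real.sqrt d * (d : ℝ) ^ (1 / 4 : ℝ) := by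
      rw [Real.sqrt_eq_rpow, ← Real.rpow_add hdp]
      norm_num
    have h9 : Real.sqrt (2 * (M * d)) = Real.sqrt (2 * M) * Real.sqrt d := by
      rw [← mul_assoc, Real.sqrt_mul (by positivity)]
    have h10 : 1 ≤ Real.sqrt d := Real.one_le_sqrt.2 (by linarith)
    have h11 : 1 ≤ Real.sqrt (2 * M) := Real.one_le_sqrt.2 (by linarith)
    have h12 : 2 ≤ Real.sqrt (2 * M) * Real.sqrt d := by
      rw [← h9]
      exact Real.le_sqrt_of_sq_le (by nlinarith)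
    calc 2 + Real.sqrt (2 * (M * d)) ≤ 2 * Real.sqrt (2 * M) * Real.sqrt d := by
          rw [h9]
          linarith
      _ ≤ 3 / 64 * (Real.sqrt d * (d : ℝ) ^ (1 / 4 : ℝ)) := by nlinarith
      _ ≤ 3 / 64 * (((d : ℝ) ^ (-c)) ^ 2 * d) := by
          rw [← h8]
          gcongr
      _ = _ := by ring

/-- BLOCK EMBS -/
theorem stmt_EMBS : Stmt_SWR.{u} → Stmt_SW.{u} := by
  rintro ⟨c0, M, d0, hc0, hM, hR⟩
  obtain ⟨d1, hd1⟩ := bigS c0 (min (c0 / 3) (1 / 8)) M hc0 rfl hM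
  set c : ℝ := min (c0 / 3) (1 / 8) with hc
  have hcpos : 0 < c := lt_min (by positivity) (by norm_num)
  refine ⟨c, M, max d0 d1, hcpos, hM, ?_⟩
  intro V _ G d hd hdeg hexp
  obtain ⟨hd1', hg1, hg2⟩ := hd1 d (le_of_max_le_right hd)
  have hdp : (0 : ℝ) < d := by linarith
  obtain ⟨q, hq1, hq2⟩ := Nat.exists_infinite_primes d
  have : Fact q.Prime := ⟨hq2⟩
  have : NeZero q := ⟨hq2.ne_zero⟩
  set g : ℝ := (d : ℝ) ^ (-c) with hg
  have hgpos : 0 < g := Real.rpow_pos_of_pos hdp _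
  have hg1' : g ≤ 1 := by
    rw [hg]
    exact Real.rpow_le_one_of_one_le_of_nonpos hd1' (by linarith)
  have hgd : (d : ℝ) ^ (1 - c) = g * d := by
    rw [hg]
    nth_rewrite 3 [← Real.rpow_one (d : ℝ)]
    rw [← Real.rpow_add hdp]
    congr 1
    ring
  have hdeg' : ∀ v, G.degree v ≤ d := fun v => by rw [← nb_card]; exact hdeg v
  have hreg : Reg (EMB.ext G d q) d := fun v => by
    rw [nb_card]
    exact EMB.ext_regular G d hdeg' hq1 v
  have hex : LExp (EMB.ext G d q) d (g ^ 2 / 64) M := by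
    intro T U hT hU
    rw [outE_eq]
    refine EMB.ext_exp G d hdeg' hq1 g M hgpos hg1' hg2 ?_ T U hT hU
    intro T' U' h1 h2 h3
    rw [← outE_eq, ← hgd]
    refine hexp T' U' (fun v hv => ?_) h2 h3
    rw [nb_card, hgd]
    have := h1 v hv
    linarith
  obtain ⟨c', t, hct⟩ := hR (EMB.ext G d q) d (le_of_max_le_left hd) hreg
    (LExp_mono _ d _ _ M hg1 hex)
  have hf : ∀ v w, (EMB.ext G d q).Adj (v, (true, 0, 0)) (w, (true, 0, 0)) ↔ G.Adj v w :=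
    fun v w => EMB.ext_induced G d (true, 0, 0) v w
  refine ⟨fun v => c' (v, (true, 0, 0)), fun e => t (e.map fun v => (v, (true, 0, 0))),
    ⟨fun v w h => hct.vertex _ _ ((hf v w).2 h), fun v w w' h1 h2 h3 => ?_, fun v w h => ?_⟩⟩
  · rw [Sym2.map_mk, Sym2.map_mk]
    exact hct.edge _ _ _ ((hf v w).2 h1) ((hf v w').2 h2) fun h => h3 (Prod.mk.inj h).1
  · rw [Sym2.map_mk]
    exact hct.incidence _ _ ((hf v w).2 h)

end Pool.Agent.Work.MP_db9399_cg.helper54
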