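import Pool.Agent.Work.MP_db9399_cg.Interface
import Pool.Agent.Work.MP_db9399_as_helper6.EMB2

/-! # SPW, block EMBX: the regular case implies the general case (helper54) -/

set_option autoImplicit false

namespace Pool.Agent.Work.MP_db9399_cg.helper54

open Finset Classical
open Pool.Agent.Work.MP_db9399_all (nb)
open _root_.MP_db9399_co (IsTotalColoring)
open Pool.Agent.Work.MP_db9399_as.helper6

universe u

theorem nb_eq {W : Type u} [Fintype W] (G : SimpleGraph W) [DecidableRel G.Adj] (v : W) :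
    nb G v = G.neighborFinset v := by
  ext w
  simp [nb]

theorem nb_card {W : Type u} [Fintype W] (G : SimpleGraph W) [DecidableRel G.Adj] (v : W) :
    (nb G v).card = G.degree v := by
  rw [nb_eq, SimpleGraph.card_neighborFinset_eq_degree]

theorem outE_eq {W : Type u} [Fintype W] [DecidableEq W] (G : SimpleGraph W)
    [DecidableRel G.Adj] (T U : Finset W) : outE G T U = EMB.out G T U := by
  unfold outE EMB.out
  refine Finset.sum_congr rfl fun v _ => ?_
  rw [nb_eq]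
  congr 2
  ext w
  simp

theorem big (M a : ℝ) (hM : 1 ≤ M) (ha : 0 < a) : ∃ d1 : ℕ, ∀ d : ℕ, d1 ≤ d →
    2 + Real.sqrt (2 * (M * d)) ≤ a * d := by
  refine ⟨⌈8 * M / a ^ 2 + 4 / a⌉₊, fun d hd => ?_⟩
  have h1 : 8 * M / a ^ 2 + 4 / a ≤ d := (Nat.le_ceil _).trans (by exact_mod_cast hd)
  have h2 : 0 ≤ 8 * M / a ^ 2 := by positivity
  have h3 : 0 ≤ 4 / a := by positivity
  have h4 : 4 ≤ a * d := by
    have : 4 / a ≤ d := by linarith
    rw [div_le_iff₀ ha] at this
    linarith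
  have h5 : 8 * M ≤ a ^ 2 * d := by
    have : 8 * M / a ^ 2 ≤ d := by linarith
    rw [div_le_iff₀ (by positivity)] at this
    linarith
  have h6 : Real.sqrt (2 * (M * d)) ≤ a * d / 2 := by
    refine Real.sqrt_le_iff.2 ⟨by linarith, ?_⟩
    have hd0 : (0 : ℝ) ≤ d := Nat.cast_nonneg d
    nlinarith
  linarith

/-- BLOCK EMBX -/
theorem stmt_EMBX : Stmt_SPR.{u} → Stmt_SPW.{u} := by
  intro hR g hg hg1
  obtain ⟨M, d0, hM, hR⟩ := hR (g ^ 2 / 64) (by positivity) (by nlinarith)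
  obtain ⟨d1, hd1⟩ := big M (3 * g ^ 2 / 64) hM (by positivity)
  refine ⟨M, max d0 d1, hM, ?_⟩
  intro V _ G d hd hdeg hexp
  obtain ⟨q, hq1, hq2⟩ := Nat.exists_infinite_primes d
  have : Fact q.Prime := ⟨hq2⟩
  have : NeZero q := ⟨hq2.ne_zero⟩
  have hdeg' : ∀ v, G.degree v ≤ d := fun v => by rw [← nb_card]; exact hdeg v
  have hreg : Reg (EMB.ext G d q) d := fun v => by
    rw [nb_card]
    exact EMB.ext_regular G d hdeg' hq1 v
  have hex : LExp (EMB.ext G d q) d (g ^ 2 / 64) M := by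
    intro T U hT hU
    rw [outE_eq]
    refine EMB.ext_exp G d hdeg' hq1 g M hg hg1 (hd1 d (le_of_max_le_right hd)) ?_ T U hT hU
    intro T' U' h1 h2 h3
    rw [← outE_eq]
    exact hexp T' U' (fun v hv => by rw [nb_card]; exact h1 v hv) h2 h3
  obtain ⟨c, t, hct⟩ := hR (EMB.ext G d q) d (le_of_max_le_left hd) hreg hex
  have hf : ∀ v w, (EMB.ext G d q).Adj (v, (true, 0, 0)) (w, (true, 0, 0)) ↔ G.Adj v w :=
    fun v w => EMB.ext_induced G d (true, 0, 0) v w
  refine ⟨fun v => c (v, (true, 0, 0)), fun e => t (e.map fun v => (v, (true, 0, 0))),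
    ⟨fun v w h => hct.vertex _ _ ((hf v w).2 h), fun v w w' h1 h2 h3 => ?_, fun v w h => ?_⟩⟩
  · rw [Sym2.map_mk, Sym2.map_mk]
    exact hct.edge _ _ _ ((hf v w).2 h1) ((hf v w').2 h2) fun h => h3 (Prod.mk.inj h).1
  · rw [Sym2.map_mk]
    exact hct.incidence _ _ ((hf v w).2 h)

end Pool.Agent.Work.MP_db9399_cg.helper54
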