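import Pool.Agent.Work.MP_db9399_cg_helper54.KMLA
import Pool.Agent.Work.MP_db9399_px_helper31.UNI

/-! # SPW, block KML, second part: the set `Km` (helper54) -/

set_option autoImplicit false
set_option linter.unusedSectionVars false

namespace Pool.Agent.Work.MP_db9399_cg.helper54

open Finset Classical
open Pool.Agent.Work.MP_db9399_all (nb pr DepOnI PackI Stmt_LLLI stmt_LLLI)
open Pool.Agent.Work.MP_db9399_px (avg Stmt_PBM)
open Pool.Agent.Work.MP_db9399_px.helper31 (pr_box)
open Pool.Agent.Work.MP_db9399_en (tk tks)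

universe u

namespace KML

section coins
variable {J : Type u} [Fintype J] {M : ℕ}

lemma card_zero (hM : 0 < M) : (univ.filter fun a : Fin M => a.val = 0).card = 1 := by
  rw [card_eq_one]
  refine ⟨⟨0, hM⟩, ?_⟩
  ext a
  simp [Fin.ext_iff]

lemma pr_head (hM : 0 < M) (x : J) : pr (fun f : J → Fin M => (f x).val = 0) = 1 / (M : ℝ) := by
  have hM' : (M : ℝ) ≠ 0 := by positivity
  have h := pr_box hM (fun z : J => if z = x then univ.filter (fun a : Fin M => a.val = 0) else univ)
  have h1 : (fun f : J → Fin M => ∀ j, f j ∈ if j = x then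
      univ.filter (fun a : Fin M => a.val = 0) else univ) = fun f => (f x).val = 0 := by
    funext f
    refine propext ⟨fun h => by simpa using h x, fun h j => ?_⟩
    by_cases hj : j = x
    · subst hj
      simpa using h
    · simp [hj]
  rw [h1] at h
  rw [h, Finset.prod_eq_single x]
  · rw [if_pos rfl, card_zero hM, Nat.cast_one]
  · intro z _ hz
    rw [if_neg hz, card_univ, Fintype.card_fin, div_self hM']
  · exact fun h => absurd (mem_univ _) h

lemma pr_heads (hM : 0 < M) (x y : J) (hxy : x ≠ y) :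
    pr (fun f : J → Fin M => (f x).val = 0 ∧ (f y).val = 0) = 1 / (M : ℝ) ^ 2 := by
  have hM' : (M : ℝ) ≠ 0 := by positivity
  have h := pr_box hM (fun z : J => if z = x ∨ z = y then
    univ.filter (fun a : Fin M => a.val = 0) else univ)
  have h1 : (fun f : J → Fin M => ∀ j, f j ∈ if j = x ∨ j = y then
      univ.filter (fun a : Fin M => a.val = 0) else univ) =
      fun f => (f x).val = 0 ∧ (f y).val = 0 := by
    funext f
    refine propext ⟨fun h => ⟨by simpa using h x, by simpa using h y⟩, fun h j => ?_⟩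
    by_cases hj : j = x ∨ j = y
    · rw [if_pos hj]
      rcases hj with rfl | rfl
      · simpa using h.1
      · simpa using h.2
    · rw [if_neg hj]
      exact mem_univ _
  rw [h1] at h
  rw [h, Finset.prod_eq_mul x y hxy]
  · rw [if_pos (Or.inl rfl), if_pos (Or.inr rfl), card_zero hM, Nat.cast_one]
    field_simp
  · intro z _ hz
    rw [if_neg (by rw [not_or]; exact hz), card_univ, Fintype.card_fin, div_self hM']
  · exact fun h => absurd (mem_univ _) h
  · exact fun h => absurd (mem_univ _) h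

end coins

section heads
variable {V : Type u} [Fintype V] {P M : ℕ} (c : V → Fin P) (N : Fin P → V → V) (K : Finset V)

/-- `x` is exposed to `y` -/
def Rr (x y : V) : Prop := x ≠ y ∧ ∃ b, N b x = y ∧ (c x = b ∨ c y = b)

/-- the vertices of `K` to which `x` is exposed -/
noncomputable def Ex (x : V) : Finset V := K.filter (Rr c N x)

/-- number of tokens -/
noncomputable def tau (x : V) : ℕ := (univ.filter fun b => x ∈ tk c N b).card

variable {c N K}

lemma Rr_symm (hN : ∀ b v, N b (N b v) = v) {x y : V} (h : Rr c N x y) : Rr c N y x := by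
  obtain ⟨h1, b, h2, h3⟩ := h
  exact ⟨h1.symm, b, by rw [← h2, hN], h3.symm⟩

lemma Ex_card (x : V) : (Ex c N K x).card ≤ 1 + tau c N x := by
  have h1 : Ex c N K x ⊆ insert (N (c x) x)
      ((univ.filter fun b => x ∈ tk c N b).image fun b => N b x) := by
    intro y hy
    obtain ⟨_, h1, b, h2, h3⟩ := mem_filter.1 hy
    rw [mem_insert, mem_image]
    by_cases hb : c x = b
    · left
      rw [hb, h2]
    · right
      refine ⟨b, mem_filter.2 ⟨mem_univ _, ?_⟩, h2⟩
      unfold tk
      rw [mem_filter]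
      refine ⟨mem_univ _, hb, Or.inr ?_⟩
      rw [h2]
      exact h3.resolve_left hb
  refine (card_le_card h1).trans ((card_insert_le _ _).trans ?_)
  have := card_image_le (s := univ.filter fun b => x ∈ tk c N b) (f := fun b => N b x)
  unfold tau
  omega

/-- head without exposed heads -/
def good (c : V → Fin P) (N : Fin P → V → V) (K : Finset V) (f : V → Fin M) (x : V) : Prop :=
  (f x).val = 0 ∧ ∀ y ∈ Ex c N K x, (f y).val ≠ 0

/-- number of good vertices of `A` -/
noncomputable def cnt (c : V → Fin P) (N : Fin P → V → V) (K A : Finset V) (f : V → Fin M) : ℝ :=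
  ∑ x ∈ A, if good c N K f x then 1 else 0

lemma pr_good (hM : 0 < M) (x : V) :
    1 / (M : ℝ) - (Ex c N K x).card / (M : ℝ) ^ 2 ≤
      pr (fun f : V → Fin M => good c N K f x) := by
  have h1 : avg (fun f : V → Fin M => if (f x).val = 0 then (1 : ℝ) else 0) ≤
      avg (fun f : V → Fin M => (if good c N K f x then (1 : ℝ) else 0) +
        ∑ y ∈ Ex c N K x, if (f x).val = 0 ∧ (f y).val = 0 then (1 : ℝ) else 0) := by
    refine avg_mono fun f => ?_
    have hs : 0 ≤ ∑ y ∈ Ex c N K x, if (f x).val = 0 ∧ (f y).val = 0 then (1 : ℝ) else 0 :=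
      Finset.sum_nonneg fun y _ => by split_ifs <;> norm_num
    by_cases hx : (f x).val = 0
    · by_cases hg : good c N K f x
      · rw [if_pos hx, if_pos hg]
        linarith
      · rw [if_pos hx, if_neg hg]
        have h2 : ∃ y ∈ Ex c N K x, (f y).val = 0 := by
          by_contra hcon
          push Not at hcon
          exact hg ⟨hx, hcon⟩
        obtain ⟨y, hy, hy0⟩ := h2
        have h3 := Finset.single_le_sum (f := fun y => if (f x).val = 0 ∧ (f y).val = 0
          then (1 : ℝ) else 0) (fun y _ => by split_ifs <;> norm_num) hy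
        simp only [hx, hy0, and_self, if_true] at h3
        simp only [hx]
        linarith
    · rw [if_neg hx]
      have h2 : (0 : ℝ) ≤ if good c N K f x then (1 : ℝ) else 0 := by split_ifs <;> norm_num
      linarith
  rw [avg_add, avg_ind, avg_ind, pr_head hM, avg_sum] at h1
  have h2 : ∀ y ∈ Ex c N K x, avg (fun f : V → Fin M =>
      if (f x).val = 0 ∧ (f y).val = 0 then (1 : ℝ) else 0) = 1 / (M : ℝ) ^ 2 := by
    intro y hy
    rw [avg_ind, pr_heads hM x y (mem_filter.1 hy).2.1]
  rw [Finset.sum_congr rfl h2, Finset.sum_const, nsmul_eq_mul] at h1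
  rw [mul_one_div] at h1
  linarith

/-- the coins seen by `A` -/
noncomputable def QA (c : V → Fin P) (N : Fin P → V → V) (K A : Finset V) : Finset V :=
  A.biUnion fun x => insert x (Ex c N K x)

lemma good_dep {f f' : V → Fin M} {x : V} (h : ∀ y ∈ insert x (Ex c N K x), f y = f' y) :
    good c N K f x ↔ good c N K f' x := by
  unfold good
  rw [h x (mem_insert_self _ _)]
  refine and_congr Iff.rfl (forall₂_congr fun y hy => ?_)
  rw [h y (mem_insert_of_mem hy)]

lemma cnt_dep {A : Finset V} {f f' : V → Fin M} (h : ∀ y ∈ QA c N K A, f y = f' y) :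
    cnt c N K A f = cnt c N K A f' := by
  unfold cnt
  refine Finset.sum_congr rfl fun x hx => ?_
  have h1 : good c N K f x ↔ good c N K f' x :=
    good_dep fun y hy => h y (mem_biUnion.2 ⟨x, hx, hy⟩)
  simp only [h1]

lemma cnt_lip (hN : ∀ b v, N b (N b v) = v) {A : Finset V} (hA : A ⊆ K) {D : ℝ}
    (hD : ∀ x, 2 + (tau c N x : ℝ) ≤ D) (y : V) (f f' : V → Fin M)
    (h : ∀ z, z ≠ y → f z = f' z) :
    |cnt c N K A f - cnt c N K A f'| ≤ if y ∈ QA c N K A then D else 0 := by
  by_cases hy : y ∈ QA c N K A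
  · rw [if_pos hy]
    unfold cnt
    rw [← Finset.sum_sub_distrib]
    refine (Finset.abs_sum_le_sum_abs _ _).trans ?_
    have h1 : ∀ x ∈ A, |(if good c N K f x then (1 : ℝ) else 0) -
        if good c N K f' x then (1 : ℝ) else 0| ≤ if x ∈ insert y (Ex c N K y) then 1 else 0 := by
      intro x hx
      by_cases hxy : x ∈ insert y (Ex c N K y)
      · rw [if_pos hxy]
        split_ifs <;> norm_num
      · rw [if_neg hxy]
        have h2 : good c N K f x ↔ good c N K f' x := by
          refine good_dep fun z hz => h z ?_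
          rintro rfl
          rcases mem_insert.1 hz with h3 | h3
          · exact hxy (mem_insert.2 (Or.inl h3.symm))
          · exact hxy (mem_insert.2 (Or.inr (mem_filter.2
              ⟨hA hx, Rr_symm hN (mem_filter.1 h3).2⟩)))
        simp only [h2, sub_self, abs_zero, le_refl]
    refine (Finset.sum_le_sum h1).trans ?_
    rw [Finset.sum_boole]
    have h2 : ((A.filter fun x => x ∈ insert y (Ex c N K y)).card : ℝ) ≤
        ((insert y (Ex c N K y)).card : ℝ) := by
      exact_mod_cast card_le_card fun x hx => (mem_filter.1 hx).2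
    have h3 : ((insert y (Ex c N K y)).card : ℝ) ≤ 2 + tau c N y := by
      have h4 := card_insert_le y (Ex c N K y)
      have h5 := Ex_card (c := c) (N := N) (K := K) y
      have h6 : (insert y (Ex c N K y)).card ≤ 2 + tau c N y := by omega
      exact_mod_cast h6
    exact h2.trans (h3.trans (hD y))
  · rw [if_neg hy]
    have h1 : cnt c N K A f = cnt c N K A f' := cnt_dep fun z hz => h z fun hzy => hy (hzy ▸ hz)
    rw [h1, sub_self, abs_zero]

lemma QA_card {A : Finset V} {D : ℝ} (hD : ∀ x, 2 + (tau c N x : ℝ) ≤ D) :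
    ((QA c N K A).card : ℝ) ≤ A.card * D := by
  have h1 : ((QA c N K A).card : ℝ) ≤ ∑ x ∈ A, ((insert x (Ex c N K x)).card : ℝ) := by
    exact_mod_cast card_biUnion_le
  refine h1.trans ?_
  rw [← nsmul_eq_mul]
  refine Finset.sum_le_card_nsmul _ _ _ fun x _ => ?_
  have h4 := card_insert_le x (Ex c N K x)
  have h5 := Ex_card (c := c) (N := N) (K := K) x
  have h6 : (insert x (Ex c N K x)).card ≤ 2 + tau c N x := by omega
  exact le_trans (by exact_mod_cast h6) (hD x)

end heads

/-- the asymptotics -/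
lemma asym (σ β : ℝ) (hσ : 0 < σ) (hβ : 0 < β) : ∃ d0 : ℕ, 256 ≤ d0 ∧ ∀ d : ℕ, d0 ≤ d →
    Real.log d ≤ β ^ 4 / 14400000 * (d : ℝ) ^ (1 / 2 : ℝ) ∧ 2 ≤ (d : ℝ) ^ σ := by
  have h1 := (isLittleO_log_rpow_atTop (show (0 : ℝ) < 1 / 2 by norm_num)).bound
    (show (0 : ℝ) < β ^ 4 / 14400000 by positivity)
  have h1' := (tendsto_rpow_atTop hσ).eventually_ge_atTop 2
  have h2 := (h1.and h1').and (Filter.eventually_ge_atTop (256 : ℝ))
  obtain ⟨x0, hx0⟩ := Filter.eventually_atTop.1 h2
  refine ⟨max 256 ⌈x0⌉₊, le_max_left _ _, fun d hd => ?_⟩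
  have h3 : x0 ≤ d := (Nat.le_ceil _).trans (by exact_mod_cast (le_max_right _ _).trans hd)
  obtain ⟨⟨h4, h5⟩, h7⟩ := hx0 d h3
  rw [Real.norm_of_nonneg (Real.log_nonneg (by linarith)),
    Real.norm_of_nonneg (by positivity)] at h4
  exact ⟨h4, h5⟩

/-- the set `Km` -/
theorem headsKm (a s₀ β : ℝ) (ha : 0 < a) (ha1 : a ≤ 1 / 100) (hs₀ : 0 < s₀ * a)
    (hs₁ : s₀ * a ≤ 1 / 20) (hβ : 0 < β) (hβ1 : β ≤ 1 / 16) :
    ∃ d0 : ℕ,
    ∀ {V : Type u} [Fintype V] (G S : SimpleGraph V) (d P r : ℕ)
      (N : Fin P → V → V) (c : V → Fin P) (K : Finset V), d0 ≤ d →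
      Mat G S d P r a N → Own G S d P r a s₀ N c →
      (∀ v ∈ K, ∀ w ∈ K, ¬ S.Adj v w) → (∀ v, v ∉ K → β * r ≤ ((nb S v ∩ K).card : ℝ)) →
      ∃ Km : Finset V, Km ⊆ K ∧
        (∀ v ∈ Km, ∀ w ∈ Km, G.Adj v w → ∃ b, N b v = w ∧ c v ≠ b ∧ c w ≠ b) ∧
        (∀ v, v ∉ K → β ^ 2 / 200 * r ≤ (((nb S v).filter fun w => w ∈ Km).card : ℝ)) := by
  obtain ⟨d0, hd0, has⟩ := asym (s₀ * a) β hs₀ hβ
  refine ⟨d0, ?_⟩
  intro V _ G S d P r N c K hd hM hO hK1 hK2
  have hd256 : (256 : ℝ) ≤ d := by exact_mod_cast hd0.trans hd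
  obtain ⟨hLlog, hsp2⟩ := has d hd
  have hdp : (0 : ℝ) < d := by linarith
  set L : ℝ := (d : ℝ) ^ (s₀ * a) with hL
  have hL0 : 0 < L := by linarith
  have hLd : L ≤ d := by
    have h1 : L ≤ (d : ℝ) ^ (1 : ℝ) :=
      Real.rpow_le_rpow_of_exponent_le (by linarith) (by linarith)
    rwa [Real.rpow_one] at h1
  have hr : (d : ℝ) ^ (1 - a) ≤ r := hM.rlo
  have hr2' : (2 : ℝ) ≤ r := by
    refine le_trans ?_ hr
    have h1 : (d : ℝ) ^ (1 / 2 : ℝ) ≤ (d : ℝ) ^ (1 - a) :=
      Real.rpow_le_rpow_of_exponent_le (by linarith) (by linarith)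
    have h2 : 2 ≤ (d : ℝ) ^ (1 / 2 : ℝ) := by
      rw [← Real.sqrt_eq_rpow]
      exact Real.le_sqrt_of_sq_le (by linarith)
    linarith
  have hrd : (r : ℝ) ≤ d + 1 := by
    have := hM.hP
    exact_mod_cast (by omega : r ≤ d + 1)
  -- number of coins
  set M : ℕ := ⌈16 / β⌉₊ with hMdef
  have hM16 : 16 / β ≤ M := Nat.le_ceil _
  have hM17 : (M : ℝ) ≤ 17 / β := by
    have h1 : (M : ℝ) < 16 / β + 1 := Nat.ceil_lt_add_one (by positivity)
    have h2 : 16 / β + 1 ≤ 17 / β := by
      rw [div_add_one hβ.ne', div_le_div_iff_of_pos_right hβ]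
      linarith
    linarith
  have hM0' : (0 : ℝ) < M := lt_of_lt_of_le (by positivity) hM16
  have hM0 : 0 < M := by exact_mod_cast hM0'
  -- the bound of the tokens
  set D : ℝ := 2 + L with hD
  have hD2 : 2 ≤ D := by linarith
  have hDL : D ≤ 2 * L := by linarith
  have hDtau : ∀ x, 2 + (tau c N x : ℝ) ≤ D := fun x => by
    have : (tau c N x : ℝ) ≤ L := hO.t1 x
    linarith
  -- the vertices with few exposures
  set A : V → Finset V := fun v =>
    (nb S v ∩ K).filter fun x => 1 + (tau c N x : ℝ) ≤ 11 / β with hA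
  have hAK : ∀ v, A v ⊆ K := fun v x hx => (mem_inter.1 (mem_filter.1 hx).1).2
  have hAS : ∀ v, A v ⊆ nb S v := fun v x hx => (mem_inter.1 (mem_filter.1 hx).1).1
  have hAr : ∀ v, ((A v).card : ℝ) ≤ r + 1 := fun v => by
    have h1 := (card_le_card (hAS v)).trans (hM.hi v)
    exact_mod_cast h1
  have hAlow : ∀ v, v ∉ K → β * r / 2 ≤ ((A v).card : ℝ) := by
    intro v hv
    have h1 := hK2 v hv
    set B := (nb S v).filter fun x => 11 / β < 1 + (tau c N x : ℝ) with hB
    have h2 : ((nb S v ∩ K).card : ℝ) ≤ (A v).card + B.card := by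
      have h3 : nb S v ∩ K ⊆ A v ∪ B := by
        intro x hx
        rw [mem_union]
        by_cases h : 1 + (tau c N x : ℝ) ≤ 11 / β
        · exact Or.inl (mem_filter.2 ⟨hx, h⟩)
        · exact Or.inr (mem_filter.2 ⟨(mem_inter.1 hx).1, not_le.1 h⟩)
      exact_mod_cast (card_le_card h3).trans (card_union_le _ _)
    have h3 : (B.card : ℝ) * (11 / β) ≤ ∑ x ∈ nb S v, (1 + (tau c N x : ℝ)) := by
      rw [← nsmul_eq_mul]
      refine (Finset.card_nsmul_le_sum B _ _ fun x hx => (mem_filter.1 hx).2.le).trans ?_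
      exact Finset.sum_le_sum_of_subset_of_nonneg (filter_subset _ _)
        fun x _ _ => by positivity
    have h4 : ∑ x ∈ nb S v, (1 + (tau c N x : ℝ)) ≤ 5 * r + 1 := by
      rw [Finset.sum_add_distrib, Finset.sum_const, nsmul_eq_mul, mul_one]
      have h5 : ((nb S v).card : ℝ) ≤ r + 1 := by exact_mod_cast hM.hi v
      have h6 : ∑ x ∈ nb S v, (tau c N x : ℝ) ≤ 4 * r := hO.av v
      linarith
    have h5 : (B.card : ℝ) ≤ β * r / 2 := by
      have h6 : (B.card : ℝ) * (11 / β) ≤ 11 / 2 * r := by linarith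
      rw [mul_div_assoc', div_le_iff₀ hβ] at h6
      linarith
    linarith
  -- the mean
  have hmean : ∀ v, v ∉ K → 5 * β ^ 2 * r / 544 ≤ avg (fun f : V → Fin M => cnt c N K (A v) f) := by
    intro v hv
    have h1 : avg (fun f : V → Fin M => cnt c N K (A v) f) =
        ∑ x ∈ A v, pr (fun f : V → Fin M => good c N K f x) := by
      unfold cnt
      rw [avg_sum]
      exact Finset.sum_congr rfl fun x _ => avg_ind _
    have h2 : ∀ x ∈ A v, 5 / 16 * (1 / (M : ℝ)) ≤ pr (fun f : V → Fin M => good c N K f x) := by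
      intro x hx
      refine le_trans ?_ (pr_good hM0 x)
      have h3 : ((Ex c N K x).card : ℝ) ≤ 11 / β := by
        have h4 := Ex_card (c := c) (N := N) (K := K) x
        have h5 : ((Ex c N K x).card : ℝ) ≤ 1 + tau c N x := by exact_mod_cast h4
        exact h5.trans (mem_filter.1 hx).2
      have h4 : ((Ex c N K x).card : ℝ) / M ≤ 11 / 16 := by
        rw [div_le_iff₀ hM0']
        have h5 : 11 / β = 11 / 16 * (16 / β) := by ring
        rw [h5] at h3
        exact h3.trans (mul_le_mul_of_nonneg_left hM16 (by norm_num))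
      have h5 : 1 / (M : ℝ) - (Ex c N K x).card / (M : ℝ) ^ 2 =
          (1 - (Ex c N K x).card / M) * (1 / (M : ℝ)) := by
        field_simp
      rw [h5]
      refine mul_le_mul_of_nonneg_right ?_ (by positivity)
      linarith
    rw [h1]
    refine le_trans ?_ (Finset.card_nsmul_le_sum _ _ _ h2)
    rw [nsmul_eq_mul]
    have h3 : β / 17 ≤ 1 / (M : ℝ) := by
      rw [le_div_iff₀ hM0', div_mul_eq_mul_div, div_le_one (by norm_num)]
      have := mul_le_mul_of_nonneg_left hM17 hβ.le
      rw [mul_div_assoc', mul_comm β 17, mul_div_assoc, div_self hβ.ne', mul_one] at this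
      exact this
    have h4 := hAlow v hv
    calc 5 * β ^ 2 * r / 544 = β * r / 2 * (5 / 16 * (β / 17)) := by ring
      _ ≤ ((A v).card : ℝ) * (5 / 16 * (1 / M)) := by gcongr
  -- failure
  set s : ℝ := (r + 1) * D ^ 3 with hs
  have hs0 : 0 < s := by positivity
  set φ : ℝ := Real.exp (-(β ^ 2 * r / 300) ^ 2 / (2 * s)) with hφ
  have hfail : ∀ v, pr (fun f : V → Fin M =>
      ¬ (v ∉ K → β ^ 2 / 200 * r ≤ cnt c N K (A v) f)) ≤ 2 * φ := by
    intro v
    by_cases hv : v ∈ K
    · have h1 : pr (fun f : V → Fin M =>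
          ¬ (v ∉ K → β ^ 2 / 200 * r ≤ cnt c N K (A v) f)) = 0 :=
        pr_false fun f hf => hf fun h => absurd hv h
      rw [h1]
      positivity
    · have h1 := Pool.Agent.Work.MP_db9399_px.helper31.stmt_PBM (J := V) M
        (fun f => cnt c N K (A v) f) (fun y => if y ∈ QA c N K (A v) then D else 0) s
        (β ^ 2 * r / 300) hM0 (cnt_lip hM.NN (hAK v) hDtau) (by
          have h2 : ∑ y, (if y ∈ QA c N K (A v) then D else 0) ^ 2 =
              ((QA c N K (A v)).card : ℝ) * D ^ 2 := by
            have h3 : ∀ y, (if y ∈ QA c N K (A v) then D else 0) ^ 2 =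
                if y ∈ QA c N K (A v) then D ^ 2 else 0 := by
              intro y
              split_ifs <;> ring
            simp_rw [h3]
            rw [Finset.sum_ite_mem, Finset.univ_inter, Finset.sum_const, nsmul_eq_mul]
          rw [h2]
          have h3 := (QA_card (A := A v) (K := K) hDtau).trans
            (mul_le_mul_of_nonneg_right (hAr v) (by linarith : 0 ≤ D))
          calc ((QA c N K (A v)).card : ℝ) * D ^ 2 ≤ (r + 1) * D * D ^ 2 := by gcongr
            _ = s := by rw [hs]; ring) hs0 (by positivity)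
      refine (pr_mono fun f hf => ?_).trans h1
      push Not at hf
      have h2 := hf.2
      have h3 := hmean v hv
      have h4 := neg_abs_le (cnt c N K (A v) f - avg (fun f : V → Fin M => cnt c N K (A v) f))
      have h5 : 0 ≤ β ^ 2 * r := by positivity
      linarith
  -- numbers
  have hφs : 4 * d * d * (4 * d * d) * (16 * φ) ≤ 1 := by
    have h1 : 5 * Real.log d ≤ (β ^ 2 * r / 300) ^ 2 / (2 * s) := by
      have h2 : s ≤ 2 * r * (8 * L ^ 3) := by
        calc s = (r + 1) * D ^ 3 := hs
          _ ≤ (2 * r) * (2 * L) ^ 3 := by gcongr; linarith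
          _ = _ := by ring
      have h3 : 14400000 * (Real.log d * L ^ 3) ≤ β ^ 4 * r := by
        have h4 : (d : ℝ) ^ (1 / 2 : ℝ) * L ^ 3 ≤ r := by
          refine le_trans ?_ hr
          rw [hL, ← Real.rpow_natCast, ← Real.rpow_mul hdp.le, ← Real.rpow_add hdp]
          refine Real.rpow_le_rpow_of_exponent_le (by linarith) ?_
          push_cast
          linarith
        calc 14400000 * (Real.log d * L ^ 3)
            ≤ 14400000 * (β ^ 4 / 14400000 * (d : ℝ) ^ (1 / 2 : ℝ) * L ^ 3) := by gcongr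
          _ = β ^ 4 * ((d : ℝ) ^ (1 / 2 : ℝ) * L ^ 3) := by ring
          _ ≤ β ^ 4 * r := by gcongr
      rw [le_div_iff₀ (by positivity)]
      have hlog0 : 0 ≤ Real.log d := Real.log_nonneg (by linarith)
      calc 5 * Real.log d * (2 * s) ≤ 5 * Real.log d * (2 * (2 * r * (8 * L ^ 3))) := by gcongr
        _ = r * (14400000 * (Real.log d * L ^ 3)) / 90000 := by ring
        _ ≤ r * (β ^ 4 * r) / 90000 := by gcongr
        _ = _ := by ring
    have h2 : φ ≤ (d : ℝ)⁻¹ ^ 5 := by
      have h3 : Real.exp (-(5 * Real.log d)) = (d : ℝ)⁻¹ ^ 5 := by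
        rw [Real.exp_neg, mul_comm, Real.exp_mul, Real.exp_log hdp, inv_pow]
        norm_cast
      rw [← h3, hφ]
      refine Real.exp_le_exp.2 ?_
      rw [neg_div]
      linarith
    calc 4 * d * d * (4 * d * d) * (16 * φ) ≤ 4 * d * d * (4 * d * d) * (16 * (d : ℝ)⁻¹ ^ 5) := by
          gcongr
      _ = 256 / d := by
          field_simp
          norm_num
      _ ≤ 1 := by
          rw [div_le_one hdp]
          exact hd256
  have hrD : (r + 1) * D ≤ 4 * d * d := by
    calc (r + 1) * D ≤ (2 * d) * (2 * d) := by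
          gcongr
          · linarith
          · linarith
      _ = _ := by ring
  have hrD0 : 0 < (r + 1) * D := by positivity
  have he2 : Real.exp 2 ≤ 8 := by
    have : Real.exp 2 = Real.exp 1 * Real.exp 1 := by rw [← Real.exp_add]; norm_num
    have h1 := Real.exp_one_lt_d9
    have h2 := Real.exp_pos 1
    nlinarith
  have hφ0 : 0 < φ := Real.exp_pos _
  obtain ⟨f, hf⟩ := stmt_LLLI V M V (1 / ((r + 1) * D)) (fun v => QA c N K (A v))
    (fun _ => 2 * φ * Real.exp 2)
    (fun v f => v ∉ K → β ^ 2 / 200 * r ≤ cnt c N K (A v) f) hM0 (by positivity) (by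
      refine one_div_le_one_div_of_le (by norm_num) ?_
      nlinarith) (fun v => pack_single _ _ _ _ (QA c N K (A v)) (Finset.Subset.refl _)
      (fun f f' h => by simp only [cnt_dep h]) (by
        refine mul_le_mul (hfail v) (Real.exp_le_exp.2 ?_) (Real.exp_pos _).le (by positivity)
        have h3 := (QA_card (A := A v) (K := K) hDtau).trans
          (mul_le_mul_of_nonneg_right (hAr v) (by linarith : 0 ≤ D))
        rw [mul_one_div, div_mul_eq_mul_div, div_le_iff₀ hrD0]
        linarith) (by positivity) (fun hQ0 f hv => by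
        exfalso
        have h1 := hAlow v hv
        have h2 : A v = ∅ := by
          by_contra hne
          obtain ⟨x, hx⟩ := Finset.nonempty_iff_ne_empty.2 hne
          have h3 : x ∈ QA c N K (A v) := mem_biUnion.2 ⟨x, hx, mem_insert_self _ _⟩
          rw [hQ0] at h3
          exact absurd h3 (Finset.notMem_empty _)
        rw [h2, card_empty, Nat.cast_zero] at h1
        have h3 : 0 < β * r / 2 := by positivity
        linarith)) (fun y => by
      rw [Finset.sum_const, nsmul_eq_mul]
      have h1 : ((univ.filter fun v => y ∈ QA c N K (A v)).card : ℝ) ≤ (r + 1) * D := by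
        have h2 : (univ.filter fun v => y ∈ QA c N K (A v)) ⊆
            (insert y (Ex c N K y)).biUnion fun x => nb S x := by
          intro v hv
          obtain ⟨x, hx, hy⟩ := mem_biUnion.1 (mem_filter.1 hv).2
          have hvx : v ∈ nb S x := by
            have h3 := hAS v hx
            unfold nb at h3 ⊢
            rw [mem_filter] at h3 ⊢
            exact ⟨mem_univ _, h3.2.symm⟩
          refine mem_biUnion.2 ⟨x, ?_, hvx⟩
          rcases mem_insert.1 hy with h3 | h3
          · exact mem_insert.2 (Or.inl h3.symm)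
          · exact mem_insert.2 (Or.inr (mem_filter.2
              ⟨hAK v hx, Rr_symm hM.NN (mem_filter.1 h3).2⟩))
        have h3 : ((univ.filter fun v => y ∈ QA c N K (A v)).card : ℝ) ≤
            ∑ x ∈ insert y (Ex c N K y), ((nb S x).card : ℝ) := by
          exact_mod_cast (card_le_card h2).trans card_biUnion_le
        refine h3.trans ?_
        have h4 : ∑ x ∈ insert y (Ex c N K y), ((nb S x).card : ℝ) ≤
            ((insert y (Ex c N K y)).card : ℝ) * (r + 1) := by
          rw [← nsmul_eq_mul]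
          refine Finset.sum_le_card_nsmul _ _ _ fun x _ => ?_
          exact_mod_cast hM.hi x
        refine h4.trans ?_
        rw [mul_comm]
        have h5 : ((insert y (Ex c N K y)).card : ℝ) ≤ 2 + tau c N y := by
          have h4 := card_insert_le y (Ex c N K y)
          have h5 := Ex_card (c := c) (N := N) (K := K) y
          have h6 : (insert y (Ex c N K y)).card ≤ 2 + tau c N y := by omega
          exact_mod_cast h6
        exact mul_le_mul_of_nonneg_left (h5.trans (hDtau y)) (by positivity)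
      calc ((univ.filter fun v => y ∈ QA c N K (A v)).card : ℝ) * (2 * φ * Real.exp 2)
          ≤ (r + 1) * D * (2 * φ * 8) := by gcongr
        _ ≤ 1 / ((r + 1) * D) := by
            rw [le_div_iff₀ hrD0]
            calc (r + 1) * D * (2 * φ * 8) * ((r + 1) * D)
                = (r + 1) * D * ((r + 1) * D) * (16 * φ) := by ring
              _ ≤ 4 * d * d * (4 * d * d) * (16 * φ) := by gcongr
              _ ≤ 1 := hφs)
  refine ⟨K.filter fun x => good c N K f x, filter_subset _ _, ?_, ?_⟩
  · intro v hv w hw hvw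
    obtain ⟨hvK, hgv⟩ := mem_filter.1 hv
    obtain ⟨hwK, hgw⟩ := mem_filter.1 hw
    obtain ⟨b, hb⟩ := hM.co v w hvw (hK1 v hvK w hwK)
    refine ⟨b, hb, ?_⟩
    by_contra hcon
    have h1 : c v = b ∨ c w = b := by
      by_contra h2
      rw [not_or] at h2
      exact hcon h2
    exact hgv.2 w (mem_filter.2 ⟨hwK, hvw.ne, b, hb, h1⟩) hgw.1
  · intro v hv
    refine (hf v hv).trans ?_
    unfold cnt
    rw [Finset.sum_boole]
    have h1 : (A v).filter (fun x => good c N K f x) ⊆
        (nb S v).filter fun w => w ∈ K.filter fun x => good c N K f x := by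
      intro x hx
      obtain ⟨h2, h3⟩ := mem_filter.1 hx
      exact mem_filter.2 ⟨hAS v h2, mem_filter.2 ⟨hAK v h2, h3⟩⟩
    exact_mod_cast card_le_card h1

end KML

open KML in
/-- BLOCK KML -/
theorem stmt_KML : Stmt_KML.{u} := by
  intro s₀ hs₀
  refine ⟨1 / (20 * s₀), by positivity, ?_⟩
  intro a ε ha haa ha1 hε
  have hsa : 0 < s₀ * a := by positivity
  have hsa1 : s₀ * a ≤ 1 / 20 := by
    rw [le_div_iff₀ (by positivity)] at haa
    linarith
  obtain ⟨d1, h1⟩ := headsKm.{u} a s₀ (1 / 128) ha ha1 hsa hsa1 (by norm_num) (by norm_num)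
  obtain ⟨e, d2, he, h2⟩ := labels.{u} a (s₀ * a) ε ha ha1 hsa hsa1 hε
  refine ⟨e, max d1 d2, he, ?_⟩
  intro V _ G S d P r I _ p q N c K hd hM hO hK1 hK2 hp hq hT h20
  obtain ⟨Km, a1, a2, a3⟩ := h1 G S d P r N c K ((le_max_left _ _).trans hd) hM hO hK1
    (fun v hv => by
      have := hK2 v hv
      linarith)
  have a3' : ∀ v, v ∉ K → (r : ℝ) / 4000000 ≤ (((nb S v).filter fun w => w ∈ Km).card : ℝ) := by
    intro v hv
    refine le_trans ?_ (a3 v hv)
    have : (0 : ℝ) ≤ r := Nat.cast_nonneg r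
    linarith
  have hP : P ≤ d + 1 := by
    have := hM.hP
    omega
  obtain ⟨f, hf⟩ := h2 d P (fun i x => p i x + q i x) N c ((le_max_right _ _).trans hd) hP hO.t1
    (fun i x => add_nonneg (hp i x) (hq i x)) hT h20
  refine ⟨Km, fun b x => decide (f (LJ.mk x b) = 0), a1, a2, a3', fun i => ?_⟩
  have h3 : ∀ b, ∑ s : Bool, |∑ x ∈ tks c N (fun b x => decide (f (LJ.mk x b) = 0)) b s, p i x -
      ∑ x ∈ tks c N (fun b x => decide (f (LJ.mk x b) = 0)) b (!s), q i x| ≤
      |∑ x ∈ tk c N b, (p i x - q i x)| +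
        |∑ x ∈ tk c N b, (p i x + q i x) * sg f (LJ.mk x b)| := by
    intro b
    have h4 := two_sides (tk c N b) (fun x => decide (f (LJ.mk x b) = 0)) (p i) (q i)
    have h5 : ∀ x, (if decide (f (LJ.mk x b) = 0) = true then (1 : ℝ) else -1) =
        sg f (LJ.mk x b) := by
      intro x
      unfold sg
      by_cases hx : f (LJ.mk x b) = 0 <;> simp [hx]
    simp only [h5] at h4
    exact h4
  refine (Finset.sum_le_sum fun b _ => h3 b).trans ?_
  rw [Finset.sum_add_distrib]
  have := hf i
  unfold FF at this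
  linarith

end Pool.Agent.Work.MP_db9399_cg.helper54
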