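import Pool.Agent.Work.MP_db9399_dn.Interface

/-!
# MP_db9399, CODEG: embedding in a `d`-regular graph with small codegrees (helper54)

Copies of `G` are indexed by `Bool x F_q x F_q` (points and lines); the copies of a vertex `v` are
joined along the incidences `y + b = x m` with `x + m ∈ T v`, `|T v| = d - deg v`.
-/

set_option autoImplicit false

namespace Pool.Agent.Work.MP_db9399_cg_helper54

open Finset Classical
open Pool.Agent.Work.MP_db9399_all (nb)
open Pool.Agent.Work.MP_db9399_dn (Tot)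

universe u

/-- incidence of points and lines of the affine plane, both given as `(side, x, y)` -/
def inc {q : ℕ} (T : Finset (ZMod q)) (p p' : Bool × ZMod q × ZMod q) : Prop :=
  p.1 ≠ p'.1 ∧ p.2.2 + p'.2.2 = p.2.1 * p'.2.1 ∧ p.2.1 + p'.2.1 ∈ T

theorem inc_symm {q : ℕ} {T : Finset (ZMod q)} {p p' : Bool × ZMod q × ZMod q}
    (h : inc T p p') : inc T p' p :=
  ⟨h.1.symm, by rw [add_comm, h.2.1, mul_comm], by rw [add_comm]; exact h.2.2⟩

theorem inc_irrefl {q : ℕ} {T : Finset (ZMod q)} {p : Bool × ZMod q × ZMod q} :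
    ¬ inc T p p := fun h => h.1 rfl

/-- two different elements have at most one common neighbour -/
theorem inc_uniq {q : ℕ} [Fact q.Prime] {T : Finset (ZMod q)} {p p' c c' : Bool × ZMod q × ZMod q}
    (hne : p ≠ p') (h1 : inc T p c) (h2 : inc T p' c) (h3 : inc T p c') (h4 : inc T p' c') :
    c = c' := by
  obtain ⟨s, x, y⟩ := p
  obtain ⟨s', x', y'⟩ := p'
  obtain ⟨r, m, b⟩ := c
  obtain ⟨r', m', b'⟩ := c'
  obtain ⟨a1, a2, _⟩ := h1
  obtain ⟨b1, b2, _⟩ := h2
  obtain ⟨c1, c2, _⟩ := h3
  obtain ⟨d1, d2, _⟩ := h4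
  simp only at a1 a2 b1 b2 c1 c2 d1 d2
  have hss : s = s' := by
    revert a1 b1; cases s <;> cases s' <;> cases r <;> simp
  have hrr : r = r' := by
    revert a1 c1; cases s <;> cases r <;> cases r' <;> simp
  subst hss hrr
  have hxx : x ≠ x' := by
    rintro rfl
    apply hne
    have : y = y' := by
      have : y + b = y' + b := a2.trans b2.symm
      exact add_right_cancel this
    rw [this]
  have hm : m = m' := by
    have e1 : (x - x') * m = y - y' := by
      rw [sub_mul, ← a2, ← b2]; ring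
    have e2 : (x - x') * m' = y - y' := by
      rw [sub_mul, ← c2, ← d2]; ring
    exact mul_left_cancel₀ (sub_ne_zero.2 hxx) (e1.trans e2.symm)
  subst hm
  have hb : b = b' := add_left_cancel (a2.trans c2.symm)
  rw [hb]

theorem inc_card {q : ℕ} [Fact q.Prime] (T : Finset (ZMod q)) (p : Bool × ZMod q × ZMod q) :
    (univ.filter (fun c => inc T p c)).card = T.card := by
  obtain ⟨s, x, y⟩ := p
  symm
  apply card_bij (fun a _ => ((!s, a - x, x * (a - x) - y) : Bool × ZMod q × ZMod q))
  · intro a ha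
    rw [mem_filter]
    refine ⟨mem_univ _, ?_, ?_, ?_⟩
    · cases s <;> simp
    · simp only; ring
    · simp only
      rw [add_sub_cancel]; exact ha
  · intro a _ a' _ h
    have := (Prod.mk.inj (Prod.mk.inj h).2).1
    exact sub_left_injective this
  · intro c hc
    rw [mem_filter] at hc
    obtain ⟨r, m, b⟩ := c
    obtain ⟨_, h1, h2, h3⟩ := hc
    simp only at h1 h2 h3
    refine ⟨x + m, h3, ?_⟩
    have hr : r = !s := by
      revert h1; cases s <;> cases r <;> simp
    have hb : b = x * m - y := by rw [← h2]; ring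
    rw [hr, hb, add_sub_cancel_left]

variable {V : Type u}

/-- the regular graph -/
def Gr {q : ℕ} (G : SimpleGraph V) (T : V → Finset (ZMod q)) :
    SimpleGraph (V × (Bool × ZMod q × ZMod q)) where
  Adj a b := (G.Adj a.1 b.1 ∧ a.2 = b.2) ∨ (a.1 = b.1 ∧ inc (T a.1) a.2 b.2)
  symm := ⟨fun a b h => by
    rcases h with h | h
    · exact Or.inl ⟨h.1.symm, h.2.symm⟩
    · refine Or.inr ⟨h.1.symm, ?_⟩
      rw [← h.1]; exact inc_symm h.2⟩
  loopless := ⟨fun a h => by
    rcases h with h | h
    · exact G.loopless.irrefl _ h.1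
    · exact inc_irrefl h.2⟩

variable [Fintype V]

theorem mem_nb' {W : Type u} [Fintype W] {G : SimpleGraph W} {v w : W} :
    w ∈ nb G v ↔ G.Adj v w := by
  unfold nb; simp

theorem Gr_deg {q : ℕ} [Fact q.Prime] (G : SimpleGraph V) (T : V → Finset (ZMod q))
    (a : V × (Bool × ZMod q × ZMod q)) :
    (nb (Gr G T) a).card = (nb G a.1).card + (T a.1).card := by
  have h1 : nb (Gr G T) a = (nb G a.1).map ⟨fun w => (w, a.2), fun _ _ h => (Prod.mk.inj h).1⟩ ∪
      (univ.filter (fun c => inc (T a.1) a.2 c)).map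
        ⟨fun c => (a.1, c), fun _ _ h => (Prod.mk.inj h).2⟩ := by
    ext b
    rw [mem_nb', mem_union, mem_map, mem_map]
    constructor
    · rintro (h | h)
      · refine Or.inl ⟨b.1, mem_nb'.2 h.1, ?_⟩
        show (b.1, a.2) = b
        rw [h.2]
      · refine Or.inr ⟨b.2, mem_filter.2 ⟨mem_univ _, h.2⟩, ?_⟩
        show (a.1, b.2) = b
        rw [h.1]
    · rintro (⟨w, hw, rfl⟩ | ⟨c, hc, rfl⟩)
      · exact Or.inl ⟨mem_nb'.1 hw, rfl⟩
      · exact Or.inr ⟨rfl, (mem_filter.1 hc).2⟩
  rw [h1, card_union_of_disjoint, card_map, card_map, inc_card]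
  rw [Finset.disjoint_left]
  intro b hb hb'
  rw [mem_map] at hb hb'
  obtain ⟨w, hw, rfl⟩ := hb
  obtain ⟨c, hc, h⟩ := hb'
  have h2 : c = a.2 := (Prod.mk.inj h).2
  have h3 := (mem_filter.1 hc).2
  rw [h2] at h3
  exact inc_irrefl h3

theorem Gr_codeg {q : ℕ} [Fact q.Prime] (G : SimpleGraph V) (T : V → Finset (ZMod q)) (K : ℕ)
    (hK : ∀ v w, v ≠ w → (nb G v ∩ nb G w).card ≤ K) (a b : V × (Bool × ZMod q × ZMod q))
    (hab : a ≠ b) : (nb (Gr G T) a ∩ nb (Gr G T) b).card ≤ max K 2 := by
  obtain ⟨v, p⟩ := a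
  obtain ⟨w, r⟩ := b
  by_cases hpr : p = r
  · subst hpr
    have hvw : v ≠ w := fun h => hab (by rw [h])
    refine le_trans ?_ (le_max_left _ _)
    refine le_trans ?_ (hK v w hvw)
    rw [← card_map (⟨fun z => (z, p), fun _ _ h => (Prod.mk.inj h).1⟩ :
      V ↪ V × (Bool × ZMod q × ZMod q))]
    apply card_le_card
    intro z hz
    rw [mem_inter, mem_nb', mem_nb'] at hz
    obtain ⟨z0, c⟩ := z
    rw [mem_map]
    rcases hz with ⟨h1 | h1, h2 | h2⟩
    · refine ⟨z0, mem_inter.2 ⟨mem_nb'.2 h1.1, mem_nb'.2 h2.1⟩, ?_⟩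
      have : p = c := h1.2
      show (z0, p) = (z0, c)
      rw [this]
    · exfalso
      have e1 : p = c := h1.2
      have e2 : inc (T w) p c := h2.2
      rw [← e1] at e2
      exact inc_irrefl e2
    · exfalso
      have e1 : p = c := h2.2
      have e2 : inc (T v) p c := h1.2
      rw [← e1] at e2
      exact inc_irrefl e2
    · exfalso
      have e1 : v = z0 := h1.1
      have e2 : w = z0 := h2.1
      exact hvw (e1.trans e2.symm)
  · refine le_trans ?_ (le_max_right _ _)
    by_cases hvw : v = w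
    · subst hvw
      refine le_trans ?_ (show 1 ≤ 2 by norm_num)
      rw [card_le_one]
      intro z hz z' hz'
      rw [mem_inter, mem_nb', mem_nb'] at hz hz'
      have key : ∀ z : V × (Bool × ZMod q × ZMod q), (Gr G T).Adj (v, p) z →
          (Gr G T).Adj (v, r) z → v = z.1 ∧ inc (T v) p z.2 ∧ inc (T v) r z.2 := by
        intro z h1 h2
        rcases h1 with h1 | h1 <;> rcases h2 with h2 | h2
        · exact absurd (h1.2.trans h2.2.symm) hpr
        · exfalso
          have e1 : v = z.1 := h2.1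
          have e2 : G.Adj v z.1 := h1.1
          rw [← e1] at e2
          exact G.loopless.irrefl _ e2
        · exfalso
          have e1 : v = z.1 := h1.1
          have e2 : G.Adj v z.1 := h2.1
          rw [← e1] at e2
          exact G.loopless.irrefl _ e2
        · exact ⟨h1.1, h1.2, h2.2⟩
      obtain ⟨a1, a2, a3⟩ := key z hz.1 hz.2
      obtain ⟨b1, b2, b3⟩ := key z' hz'.1 hz'.2
      exact Prod.ext (a1.symm.trans b1) (inc_uniq hpr a2 a3 b2 b3)
    · -- at most (w, p) and (v, r)
      have hsub : nb (Gr G T) (v, p) ∩ nb (Gr G T) (w, r) ⊆ {(w, p), (v, r)} := by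
        intro z hz
        rw [mem_inter, mem_nb', mem_nb'] at hz
        obtain ⟨z0, c⟩ := z
        rw [mem_insert, mem_singleton]
        rcases hz with ⟨h1 | h1, h2 | h2⟩
        · exfalso
          have e1 : p = c := h1.2
          have e2 : r = c := h2.2
          exact hpr (e1.trans e2.symm)
        · left
          have e1 : p = c := h1.2
          have e2 : w = z0 := h2.1
          rw [e1, e2]
        · right
          have e1 : v = z0 := h1.1
          have e2 : r = c := h2.2
          rw [e1, e2]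
        · exfalso
          have e1 : v = z0 := h1.1
          have e2 : w = z0 := h2.1
          exact hvw (e1.trans e2.symm)
      exact (card_le_card hsub).trans card_le_two

/-- every graph with maximum degree at most `d` and codegrees at most `K` is an induced subgraph of
a `d`-regular graph with codegrees at most `max K 2` -/
theorem embReg (G : SimpleGraph V) (d K : ℕ) (hd : ∀ v, (nb G v).card ≤ d)
    (hK : ∀ v w, v ≠ w → (nb G v ∩ nb G w).card ≤ K) :
    ∃ (W : Type u) (_ : Fintype W) (G' : SimpleGraph W) (f : V → W), Function.Injective f ∧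
      (∀ v w, G'.Adj (f v) (f w) ↔ G.Adj v w) ∧ (∀ x, (nb G' x).card = d) ∧
      ∀ x y, x ≠ y → (nb G' x ∩ nb G' y).card ≤ max K 2 := by
  obtain ⟨q, hq1, hq2⟩ := Nat.exists_infinite_primes d
  have : Fact q.Prime := ⟨hq2⟩
  have hT : ∀ v : V, ∃ T : Finset (ZMod q), T.card = d - (nb G v).card := by
    intro v
    have h1 : d - (nb G v).card ≤ (univ : Finset (ZMod q)).card := by
      rw [card_univ, ZMod.card]; omega
    obtain ⟨T, _, hT⟩ := exists_subset_card_eq h1
    exact ⟨T, hT⟩
  choose T hT using hT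
  refine ⟨V × (Bool × ZMod q × ZMod q), inferInstance, Gr G T, fun v => (v, (false, 0, 0)),
    fun _ _ h => (Prod.mk.inj h).1, ?_, ?_, fun x y h => by convert Gr_codeg G T K hK x y h⟩
  · intro v w
    constructor
    · rintro (h | h)
      · exact h.1
      · exact absurd h.2 inc_irrefl
    · intro h
      exact Or.inl ⟨h, rfl⟩
  · intro x
    rw [Gr_deg, hT]
    have := hd x.1
    omega

/-- total colourings of `G'` give total colourings of the induced subgraph `G` -/
theorem tot_comap {W : Type u} [Fintype W] {k : ℕ} (G : SimpleGraph V)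
    (G' : SimpleGraph W) (f : V → W) (hf : Function.Injective f)
    (hG : ∀ v w, G'.Adj (f v) (f w) ↔ G.Adj v w) (c : W → Fin k) (t : W → W → Fin k)
    (h : Tot G' c t) : Tot G (fun v => c (f v)) (fun v w => t (f v) (f w)) := by
  obtain ⟨h1, h2, h3, h4⟩ := h
  refine ⟨fun v w ha => h1 _ _ ((hG v w).2 ha), fun v w => h2 _ _, ?_, fun v w ha =>
    h4 _ _ ((hG v w).2 ha)⟩
  intro v w hw w' hw' he
  rw [mem_coe, mem_nb'] at hw hw'
  exact hf (h3 (f v) (mem_coe.2 (mem_nb'.2 ((hG v w).2 hw)))
    (mem_coe.2 (mem_nb'.2 ((hG v w').2 hw'))) he)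

/-- it is enough to colour the regular graphs -/
theorem tot_of_reg (G : SimpleGraph V) (d K k : ℕ) (hd : ∀ v, (nb G v).card ≤ d)
    (hK : ∀ v w, v ≠ w → (nb G v ∩ nb G w).card ≤ K)
    (h : ∀ {W : Type u} [Fintype W] (G' : SimpleGraph W), (∀ x, (nb G' x).card = d) →
      (∀ x y, x ≠ y → (nb G' x ∩ nb G' y).card ≤ max K 2) →
      ∃ (c : W → Fin k) (t : W → W → Fin k), Tot G' c t) :
    ∃ (c : V → Fin k) (t : V → V → Fin k), Tot G c t := by
  obtain ⟨W, _, G', f, h1, h2, h3, h4⟩ := embReg G d K hd hK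
  obtain ⟨c, t, hct⟩ := h G' h3 h4
  exact ⟨_, _, tot_comap G G' f h1 h2 c t hct⟩

end Pool.Agent.Work.MP_db9399_cg_helper54
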