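import Pool.Agent.Work.MP_db9399_cg.Interface
import Pool.Agent.Work.MP_db9399_px_helper31.PBM
import Pool.Agent.Work.MP_db9399_all_helper6.LLLI

/-! # SPW, block KML, first part: the labels (helper54) -/

set_option autoImplicit false
set_option linter.unusedSectionVars false

namespace Pool.Agent.Work.MP_db9399_cg.helper54

open Finset Classical
open Pool.Agent.Work.MP_db9399_all (nb pr DepOnI PackI Stmt_LLLI stmt_LLLI)
open Pool.Agent.Work.MP_db9399_px (avg Stmt_PBM)
open Pool.Agent.Work.MP_db9399_en (tk tks)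

universe u

namespace KML

section gen
variable {Ω : Type u} [Fintype Ω]

lemma avg_add (F H : Ω → ℝ) : avg (fun ω => F ω + H ω) = avg F + avg H := by
  unfold avg; rw [Finset.sum_add_distrib, add_div]

lemma avg_sub (F H : Ω → ℝ) : avg (fun ω => F ω - H ω) = avg F - avg H := by
  unfold avg; rw [Finset.sum_sub_distrib, sub_div]

lemma avg_mul (c : ℝ) (F : Ω → ℝ) : avg (fun ω => c * F ω) = c * avg F := by
  unfold avg; rw [← Finset.mul_sum, mul_div_assoc]

lemma avg_sum {ι : Type*} (S : Finset ι) (F : ι → Ω → ℝ) :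
    avg (fun ω => ∑ i ∈ S, F i ω) = ∑ i ∈ S, avg (F i) := by
  unfold avg; rw [Finset.sum_comm, Finset.sum_div]

lemma avg_ind (E : Ω → Prop) [DecidablePred E] :
    avg (fun ω => if E ω then (1 : ℝ) else 0) = pr E := by
  unfold avg pr; rw [Finset.sum_boole]; congr!

lemma pr_false {E : Ω → Prop} (h : ∀ ω, ¬ E ω) : pr E = 0 := by
  unfold pr
  rw [Finset.filter_false_of_mem (fun ω _ => h ω)]
  simp

lemma avg_mono {F H : Ω → ℝ} (h : ∀ ω, F ω ≤ H ω) : avg F ≤ avg H := by
  unfold avg
  exact div_le_div_of_nonneg_right (Finset.sum_le_sum fun ω _ => h ω) (by positivity)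

lemma pr_mono {E E' : Ω → Prop} (h : ∀ ω, E ω → E' ω) : pr E ≤ pr E' := by
  unfold pr
  apply div_le_div_of_nonneg_right _ (by positivity)
  exact_mod_cast Finset.card_le_card (fun ω hω => by
    simp only [mem_filter, mem_univ, true_and] at hω ⊢; exact h ω hω)

lemma pr_nonneg (E : Ω → Prop) : 0 ≤ pr E := by unfold pr; positivity

lemma avg_sq [Nonempty Ω] (F : Ω → ℝ) : (avg F) ^ 2 ≤ avg (fun ω => F ω ^ 2) := by
  have hn : (0 : ℝ) < Fintype.card Ω := by exact_mod_cast Fintype.card_pos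
  have h := sq_sum_le_card_mul_sum_sq (s := (univ : Finset Ω)) (f := F)
  rw [card_univ] at h
  unfold avg
  rw [div_pow, div_le_div_iff₀ (by positivity) hn]
  nlinarith

end gen

/-- a package with one event -/
lemma pack_single {J : Type u} [Fintype J] {M : ℕ} (T : ℝ) (Sc : Finset J) (W : ℝ)
    (P : (J → Fin M) → Prop) (Q : Finset J) (hQ : Q ⊆ Sc)
    (hdep : DepOnI Q (fun f => ¬ P f)) (hW : pr (fun f => ¬ P f) *
      Real.exp (2 * T * ((Q.card : ℕ) : ℝ)) ≤ W) (hW0 : 0 ≤ W) (he : Q = ∅ → ∀ f, P f) :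
    PackI T Sc W P := by
  rcases Q.eq_empty_or_nonempty with h | h
  · refine ⟨PEmpty, inferInstance, fun k => k.elim, fun k => k.elim, fun k => k.elim,
      fun k => k.elim, fun k => k.elim, by simpa using hW0, fun f _ => he h f⟩
  · refine ⟨PUnit, inferInstance, fun _ => Q, fun _ f => ¬ P f, fun _ => hdep, fun _ => h,
      fun _ => hQ, by simpa using hW, fun f hf => not_not.1 (hf PUnit.unit)⟩

section signs
variable {J : Type u} [Fintype J]

/-- the sign of a coin -/
def sg (f : J → Fin 2) (y : J) : ℝ := if f y = 0 then 1 else -1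

/-- change the coin `y` -/
noncomputable def flip (y : J) (f : J → Fin 2) : J → Fin 2 := Function.update f y (f y + 1)

lemma flip_inv (y : J) : Function.Involutive (flip y) := by
  intro f
  unfold flip
  rw [Function.update_self, Function.update_idem]
  have h : ∀ a : Fin 2, a + 1 + 1 = a := by decide
  rw [h, Function.update_eq_self]

lemma sg_flip (y : J) (f : J → Fin 2) : sg (flip y f) y = - sg f y := by
  unfold sg flip
  rw [Function.update_self]
  have h : ∀ a : Fin 2, (if a + 1 = 0 then (1 : ℝ) else -1) = -(if a = 0 then 1 else -1) := by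
    intro a
    fin_cases a <;> simp
  exact h _

lemma sg_flip_ne {y z : J} (h : z ≠ y) (f : J → Fin 2) : sg (flip y f) z = sg f z := by
  unfold sg flip
  rw [Function.update_of_ne h]

lemma sg_sq (f : J → Fin 2) (y : J) : sg f y * sg f y = 1 := by
  unfold sg
  split_ifs <;> norm_num

lemma sg_abs (f : J → Fin 2) (y : J) : |sg f y| = 1 := by
  unfold sg
  split_ifs <;> norm_num

lemma avg_flip (y : J) (g : (J → Fin 2) → ℝ) (hg : ∀ f, g (flip y f) = g f) :
    avg (fun f => sg f y * g f) = 0 := by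
  unfold avg
  have h := Equiv.sum_comp (flip_inv y).toPerm (fun f => sg f y * g f)
  have h2 : ∑ f : J → Fin 2, sg (flip y f) y * g (flip y f) = - ∑ f, sg f y * g f := by
    rw [← Finset.sum_neg_distrib]
    refine Finset.sum_congr rfl fun f _ => ?_
    rw [sg_flip, hg]
    ring
  have h3 : ∑ f : J → Fin 2, sg (flip y f) y * g (flip y f) = ∑ f, sg f y * g f := h
  have h4 : ∑ f : J → Fin 2, sg f y * g f = 0 := by linarith
  rw [h4, zero_div]

lemma avg_one : avg (fun _ : J → Fin 2 => (1 : ℝ)) = 1 := by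
  unfold avg
  rw [Finset.sum_const, nsmul_eq_mul, mul_one, card_univ, div_self]
  exact_mod_cast Fintype.card_ne_zero

lemma avg_pair (y z : J) : avg (fun f => sg f y * sg f z) = if y = z then 1 else 0 := by
  split_ifs with h
  · subst h
    simp_rw [sg_sq]
    exact avg_one
  · exact avg_flip y (fun f => sg f z) fun f => sg_flip_ne (Ne.symm h) f

lemma avg_lin_sq {V : Type*} (A : Finset V) (u : V → ℝ) (φ : V → J)
    (hφ : ∀ x ∈ A, ∀ y ∈ A, φ x = φ y → x = y) :
    avg (fun f => (∑ x ∈ A, u x * sg f (φ x)) ^ 2) = ∑ x ∈ A, u x ^ 2 := by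
  have h1 : (fun f : J → Fin 2 => (∑ x ∈ A, u x * sg f (φ x)) ^ 2) =
      fun f => ∑ x ∈ A, ∑ y ∈ A, (u x * u y) * (sg f (φ x) * sg f (φ y)) := by
    funext f
    rw [sq, Finset.sum_mul_sum]
    refine Finset.sum_congr rfl fun x _ => Finset.sum_congr rfl fun y _ => ?_
    ring
  rw [h1, avg_sum]
  refine Finset.sum_congr rfl fun x hx => ?_
  rw [avg_sum, Finset.sum_eq_single x]
  · rw [avg_mul, avg_pair, if_pos rfl]
    ring
  · intro y hy hyx
    rw [avg_mul, avg_pair, if_neg, mul_zero]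
    intro h
    exact hyx (hφ x hx y hy h).symm
  · exact fun h => absurd hx h

end signs

/-- coins of the labels -/
def LJ (V : Type u) (P : ℕ) : Type u := V × Fin P

noncomputable instance (V : Type u) [Fintype V] (P : ℕ) : Fintype (LJ V P) :=
  inferInstanceAs (Fintype (V × Fin P))

/-- the coin of `x` and `b` -/
def LJ.mk {V : Type u} {P : ℕ} (x : V) (b : Fin P) : LJ V P := (x, b)

section labels
variable {V : Type u} [Fintype V] {P : ℕ}

/-- the deviation of the labels -/
noncomputable def FF (c : V → Fin P) (N : Fin P → V → V) (w : V → ℝ)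
    (f : LJ V P → Fin 2) : ℝ := ∑ b, |∑ x ∈ tk c N b, w x * sg f (LJ.mk x b)|

lemma sum_swap (c : V → Fin P) (N : Fin P → V → V) (g : V → ℝ) :
    ∑ b, ∑ x ∈ tk c N b, g x = ∑ x, g x * ((univ.filter fun b => x ∈ tk c N b).card : ℝ) := by
  have h1 : ∀ b, ∑ x ∈ tk c N b, g x = ∑ x, if x ∈ tk c N b then g x else 0 := by
    intro b
    rw [Finset.sum_ite_mem, Finset.univ_inter]
  simp_rw [h1]
  rw [Finset.sum_comm]
  refine Finset.sum_congr rfl fun x _ => ?_
  rw [← Finset.sum_filter, Finset.sum_const, nsmul_eq_mul, mul_comm]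

lemma avg_FF (c : V → Fin P) (N : Fin P → V → V) (w : V → ℝ) :
    (avg (FF c N w)) ^ 2 ≤ P * ∑ b, ∑ x ∈ tk c N b, w x ^ 2 := by
  refine (avg_sq _).trans ?_
  have h1 : ∀ f, FF c N w f ^ 2 ≤ P * ∑ b, (∑ x ∈ tk c N b, w x * sg f (LJ.mk x b)) ^ 2 := by
    intro f
    have h := sq_sum_le_card_mul_sum_sq (s := (univ : Finset (Fin P)))
      (f := fun b => |∑ x ∈ tk c N b, w x * sg f (LJ.mk x b)|)
    rw [card_univ, Fintype.card_fin] at h
    simp only [sq_abs] at h
    exact h
  refine (avg_mono h1).trans (le_of_eq ?_)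
  rw [avg_mul, avg_sum]
  congr 1
  refine Finset.sum_congr rfl fun b _ => ?_
  exact avg_lin_sq (tk c N b) w (fun x => LJ.mk x b) fun x _ y _ h => (Prod.mk.inj h).1

lemma lip_FF (c : V → Fin P) (N : Fin P → V → V) (w : V → ℝ) (hw : ∀ x, 0 ≤ w x)
    (y : LJ V P) (f f' : LJ V P → Fin 2) (h : ∀ z, z ≠ y → f z = f' z) :
    |FF c N w f - FF c N w f'| ≤ if y.1 ∈ tk c N y.2 then 2 * w y.1 else 0 := by
  unfold FF
  rw [← Finset.sum_sub_distrib]
  have h1 : ∀ b x, |w x * sg f (LJ.mk x b) - w x * sg f' (LJ.mk x b)| ≤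
      if LJ.mk x b = y then 2 * w y.1 else 0 := by
    intro b x
    split_ifs with hy
    · rw [← mul_sub, abs_mul, abs_of_nonneg (hw x)]
      have h2 : |sg f (LJ.mk x b) - sg f' (LJ.mk x b)| ≤ 2 := by
        refine (abs_sub _ _).trans ?_
        rw [sg_abs, sg_abs]
        norm_num
      have h3 : y.1 = x := by
        rw [← hy]
        rfl
      rw [h3]
      nlinarith [hw x]
    · have h2 : sg f (LJ.mk x b) = sg f' (LJ.mk x b) := by
        unfold sg
        rw [h _ hy]
      rw [h2, sub_self, abs_zero]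
  calc |∑ b, (|∑ x ∈ tk c N b, w x * sg f (LJ.mk x b)| - |∑ x ∈ tk c N b, w x * sg f' (LJ.mk x b)|)|
      ≤ ∑ b, |(|∑ x ∈ tk c N b, w x * sg f (LJ.mk x b)| - |∑ x ∈ tk c N b, w x * sg f' (LJ.mk x b)|)| :=
        Finset.abs_sum_le_sum_abs _ _
    _ ≤ ∑ b, |∑ x ∈ tk c N b, w x * sg f (LJ.mk x b) - ∑ x ∈ tk c N b, w x * sg f' (LJ.mk x b)| :=
        Finset.sum_le_sum fun b _ => abs_abs_sub_abs_le_abs_sub _ _
    _ ≤ ∑ b, ∑ x ∈ tk c N b, |w x * sg f (LJ.mk x b) - w x * sg f' (LJ.mk x b)| := by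
        refine Finset.sum_le_sum fun b _ => ?_
        rw [← Finset.sum_sub_distrib]
        exact Finset.abs_sum_le_sum_abs _ _
    _ ≤ ∑ b, ∑ x ∈ tk c N b, (if LJ.mk x b = y then 2 * w y.1 else 0) :=
        Finset.sum_le_sum fun b _ => Finset.sum_le_sum fun x _ => h1 b x
    _ ≤ if y.1 ∈ tk c N y.2 then 2 * w y.1 else 0 := by
        have h2 : ∀ b, ∑ x ∈ tk c N b, (if LJ.mk x b = y then 2 * w y.1 else 0) =
            if b = y.2 then (if y.1 ∈ tk c N y.2 then 2 * w y.1 else 0) else 0 := by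
          intro b
          by_cases hb : b = y.2
          · rw [if_pos hb]
            subst hb
            have h3 : ∀ x, (LJ.mk x y.2 = y) ↔ x = y.1 := by
              intro x
              constructor
              · intro h
                rw [← h]
                rfl
              · rintro rfl
                rfl
            simp_rw [h3]
            rw [Finset.sum_ite_eq']
          · rw [if_neg hb]
            refine Finset.sum_eq_zero fun x _ => if_neg ?_
            intro h
            exact hb (by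
              rw [← h]
              rfl)
        simp_rw [h2]
        rw [Finset.sum_ite_eq']
        simp

lemma sum_c2 (c : V → Fin P) (N : Fin P → V → V) (w : V → ℝ) :
    ∑ y : LJ V P, (if y.1 ∈ tk c N y.2 then 2 * w y.1 else 0) ^ 2 =
      4 * ∑ b, ∑ x ∈ tk c N b, w x ^ 2 := by
  refine (Fintype.sum_prod_type_right (fun y : V × Fin P =>
    (if y.1 ∈ tk c N y.2 then 2 * w y.1 else 0) ^ 2)).trans ?_
  rw [Finset.mul_sum]
  refine Finset.sum_congr rfl fun b _ => ?_
  simp only
  have h1 : ∀ x, (if x ∈ tk c N b then 2 * w x else 0) ^ 2 =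
      if x ∈ tk c N b then 4 * w x ^ 2 else 0 := by
    intro x
    split_ifs <;> ring
  simp_rw [h1]
  rw [Finset.sum_ite_mem, Finset.univ_inter, Finset.mul_sum]

/-- the sum over the labels -/
lemma two_sides (A : Finset V) (l : V → Bool) (p q : V → ℝ) :
    ∑ s : Bool, |∑ x ∈ A.filter (fun x => l x = s), p x -
      ∑ x ∈ A.filter (fun x => l x = !s), q x| ≤
    |∑ x ∈ A, (p x - q x)| + |∑ x ∈ A, (p x + q x) * (if l x = true then 1 else -1)| := by
  have h1 : ∑ x ∈ A.filter (fun x => l x = true), p x -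
      ∑ x ∈ A.filter (fun x => l x = false), q x =
      (1 / 2) * ∑ x ∈ A, (p x - q x) +
        (1 / 2) * ∑ x ∈ A, (p x + q x) * (if l x = true then 1 else -1) := by
    rw [Finset.sum_filter, Finset.sum_filter, ← Finset.sum_sub_distrib, Finset.mul_sum,
      Finset.mul_sum, ← Finset.sum_add_distrib]
    refine Finset.sum_congr rfl fun x _ => ?_
    cases l x <;> simp <;> ring
  have h2 : ∑ x ∈ A.filter (fun x => l x = false), p x -
      ∑ x ∈ A.filter (fun x => l x = true), q x =
      (1 / 2) * ∑ x ∈ A, (p x - q x) -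
        (1 / 2) * ∑ x ∈ A, (p x + q x) * (if l x = true then 1 else -1) := by
    rw [Finset.sum_filter, Finset.sum_filter, ← Finset.sum_sub_distrib, Finset.mul_sum,
      Finset.mul_sum, ← Finset.sum_sub_distrib]
    refine Finset.sum_congr rfl fun x _ => ?_
    cases l x <;> simp <;> ring
  rw [Fintype.sum_bool]
  simp only [Bool.not_true, Bool.not_false]
  rw [h1, h2]
  set a := ∑ x ∈ A, (p x - q x)
  set b := ∑ x ∈ A, (p x + q x) * (if l x = true then (1 : ℝ) else -1)
  have e1 : |1 / 2 * a + 1 / 2 * b| ≤ 1 / 2 * |a| + 1 / 2 * |b| := by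
    refine (abs_add_le _ _).trans ?_
    rw [abs_mul, abs_mul, abs_of_pos (by norm_num : (0 : ℝ) < 1 / 2)]
  have e2 : |1 / 2 * a - 1 / 2 * b| ≤ 1 / 2 * |a| + 1 / 2 * |b| := by
    refine (abs_sub _ _).trans ?_
    rw [abs_mul, abs_mul, abs_of_pos (by norm_num : (0 : ℝ) < 1 / 2)]
  linarith

/-- the coordinates of the labels seen by the test `w` -/
noncomputable def QQ (c : V → Fin P) (N : Fin P → V → V) (w : V → ℝ) : Finset (LJ V P) :=
  univ.filter fun y => w y.1 ≠ 0 ∧ y.1 ∈ tk c N y.2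

lemma FF_dep (c : V → Fin P) (N : Fin P → V → V) (w : V → ℝ) (f f' : LJ V P → Fin 2)
    (h : ∀ y ∈ QQ c N w, f y = f' y) : FF c N w f = FF c N w f' := by
  unfold FF
  refine Finset.sum_congr rfl fun b _ => ?_
  congr 1
  refine Finset.sum_congr rfl fun x hx => ?_
  by_cases hw : w x = 0
  · rw [hw, zero_mul, zero_mul]
  · have h1 : LJ.mk x b ∈ QQ c N w := mem_filter.2 ⟨mem_univ _, hw, hx⟩
    unfold sg
    rw [h _ h1]

lemma QQ_card (c : V → Fin P) (N : Fin P → V → V) (w : V → ℝ) (t : ℝ)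
    (ht : ∀ x, ((univ.filter fun b => x ∈ tk c N b).card : ℝ) ≤ t) :
    ((QQ c N w).card : ℝ) ≤ ((univ.filter fun x => w x ≠ 0).card : ℝ) * t := by
  have h1 : ((QQ c N w).card : ℝ) = ∑ x, ∑ b, if w x ≠ 0 ∧ x ∈ tk c N b then (1 : ℝ) else 0 := by
    unfold QQ
    rw [← Finset.sum_boole]
    exact Fintype.sum_prod_type (fun y : V × Fin P =>
      if w y.1 ≠ 0 ∧ y.1 ∈ tk c N y.2 then (1 : ℝ) else 0)
  rw [h1, ← Finset.sum_boole, Finset.sum_mul]
  refine Finset.sum_le_sum fun x _ => ?_
  by_cases hw : w x = 0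
  · simp [hw]
  · simp only [ne_eq, hw, not_false_eq_true, true_and, if_true, one_mul]
    rw [Finset.sum_boole]
    exact ht x

/-- the labels -/
theorem labels (a σ ε : ℝ) (ha : 0 < a) (ha1 : a ≤ 1 / 100) (hσ : 0 < σ) (hσ1 : σ ≤ 1 / 20)
    (hε : 0 < ε) :
    ∃ (e : ℝ) (d0 : ℕ), 0 < e ∧
    ∀ {V : Type u} [Fintype V] (d P : ℕ) {I : Type u} [Fintype I] (w : I → V → ℝ)
      (N : Fin P → V → V) (c : V → Fin P), d0 ≤ d → P ≤ d + 1 →
      (∀ x, ((univ.filter fun b => x ∈ tk c N b).card : ℝ) ≤ (d : ℝ) ^ σ) →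
      (∀ i x, 0 ≤ w i x) → Tst w d a e →
      (∀ i, ∑ x, w i x * ((univ.filter fun b => x ∈ tk c N b).card : ℝ) ≤ 20) →
      ∃ f : LJ V P → Fin 2, ∀ i, FF c N (w i) f ≤ ε := by
  obtain ⟨d0, hd0, hlog⟩ : ∃ d0 : ℕ, 64 ≤ d0 ∧ ∀ d : ℕ, d0 ≤ d →
      Real.log d ≤ (d : ℝ) ^ (a / 20) := by
    have h1 := (isLittleO_log_rpow_atTop (show (0 : ℝ) < a / 20 by positivity)).bound
      (show (0 : ℝ) < 1 by norm_num)
    have h2 := h1.and (Filter.eventually_ge_atTop (64 : ℝ))
    obtain ⟨x0, hx0⟩ := Filter.eventually_atTop.1 h2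
    refine ⟨max 64 ⌈x0⌉₊, le_max_left _ _, fun d hd => ?_⟩
    have h3 : x0 ≤ d := (Nat.le_ceil _).trans (by exact_mod_cast (le_max_right _ _).trans hd)
    obtain ⟨h4, h5⟩ := hx0 d h3
    rw [Real.norm_of_nonneg (Real.log_nonneg (by linarith)),
      Real.norm_of_nonneg (by positivity)] at h4
    linarith
  refine ⟨ε ^ 2 / 640, d0, by positivity, ?_⟩
  intro V _ d P I _ w N c hd hP ht1 hw0 hT h20
  have hd8' : (64 : ℝ) ≤ d := by exact_mod_cast hd0.trans hd
  have hdp : (0 : ℝ) < d := by linarith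
  have hlogd := hlog d hd
  set L : ℝ := (d : ℝ) ^ (a / 20) with hL
  have hL1 : 1 ≤ L := Real.one_le_rpow (by linarith) (by positivity)
  have hLd : 4 * L + 3 ≤ d := by
    have h1 : L ≤ (d : ℝ) ^ (1 / 2 : ℝ) :=
      Real.rpow_le_rpow_of_exponent_le (by linarith) (by linarith)
    rw [← Real.sqrt_eq_rpow] at h1
    have h2 : 8 ≤ Real.sqrt d := Real.le_sqrt_of_sq_le (by linarith)
    have h3 : Real.sqrt d * Real.sqrt d = d := Real.mul_self_sqrt hdp.le
    nlinarith
  have hsp : (d : ℝ) ^ σ ≤ Real.exp L := by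
    rw [Real.rpow_def_of_pos hdp]
    refine Real.exp_le_exp.2 ?_
    have h1 : 0 ≤ Real.log d := Real.log_nonneg (by linarith)
    nlinarith
  -- the sum of squares
  have hs2 : ∀ i, ∑ b, ∑ x ∈ tk c N b, w i x ^ 2 ≤ ε ^ 2 / 640 / d * 20 := by
    intro i
    rw [sum_swap]
    calc ∑ x, w i x ^ 2 * ((univ.filter fun b => x ∈ tk c N b).card : ℝ)
        ≤ ∑ x, ε ^ 2 / 640 / d * (w i x * ((univ.filter fun b => x ∈ tk c N b).card : ℝ)) := by
          refine Finset.sum_le_sum fun x _ => ?_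
          have h1 : w i x ≤ ε ^ 2 / 640 / d := (le_abs_self _).trans (hT.sup i x)
          have h2 : (0 : ℝ) ≤ ((univ.filter fun b => x ∈ tk c N b).card : ℝ) := by positivity
          have h3 := hw0 i x
          calc w i x ^ 2 * ((univ.filter fun b => x ∈ tk c N b).card : ℝ)
              = w i x * (w i x * ((univ.filter fun b => x ∈ tk c N b).card : ℝ)) := by ring
            _ ≤ _ := mul_le_mul_of_nonneg_right h1 (mul_nonneg h3 h2)
      _ = ε ^ 2 / 640 / d * ∑ x, w i x * ((univ.filter fun b => x ∈ tk c N b).card : ℝ) := by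
          rw [Finset.mul_sum]
      _ ≤ _ := mul_le_mul_of_nonneg_left (h20 i) (by positivity)
  have hP2 : (P : ℝ) ≤ 2 * d := by
    have : (P : ℝ) ≤ d + 1 := by exact_mod_cast hP
    linarith
  -- the mean
  have hmean : ∀ i, avg (FF c N (w i)) ≤ ε / 4 := by
    intro i
    have h1 := avg_FF c N (w i)
    have h2 : (P : ℝ) * ∑ b, ∑ x ∈ tk c N b, w i x ^ 2 ≤ (ε / 4) ^ 2 := by
      calc (P : ℝ) * ∑ b, ∑ x ∈ tk c N b, w i x ^ 2 ≤ 2 * d * (ε ^ 2 / 640 / d * 20) := by
            gcongr
            exact hs2 i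
        _ = (ε / 4) ^ 2 := by
            field_simp
            norm_num
    exact (le_abs_self _).trans (abs_le_of_sq_le_sq (h1.trans h2) (by positivity))
  -- the failure
  have hfail : ∀ i, pr (fun f : LJ V P → Fin 2 => ¬ FF c N (w i) f ≤ ε) ≤ 2 * Real.exp (-d) := by
    intro i
    have h1 := Pool.Agent.Work.MP_db9399_px.helper31.stmt_PBM (J := LJ V P) 2 (FF c N (w i))
      (fun y => if y.1 ∈ tk c N y.2 then 2 * w i y.1 else 0) (ε ^ 2 / (8 * d)) (ε / 2)
      (by norm_num) (lip_FF c N (w i) (hw0 i)) (by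
        rw [sum_c2]
        refine (mul_le_mul_of_nonneg_left (hs2 i) (by norm_num)).trans (le_of_eq ?_)
        field_simp
        norm_num) (by positivity) (by positivity)
    have h2 : -(ε / 2) ^ 2 / (2 * (ε ^ 2 / (8 * d))) = -d := by
      field_simp
      norm_num
    rw [h2] at h1
    refine (pr_mono fun f hf => ?_).trans h1
    have h3 := hmean i
    rw [not_le] at hf
    have h4 := le_abs_self (FF c N (w i) f - avg (FF c N (w i)))
    linarith
  -- the local lemma
  have hsx : sx d a = Real.exp L := rfl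
  set T : ℝ := Real.exp (-(3 * L)) with hTdef
  have hT4 : T ≤ 1 / 4 := by
    have h1 : T ≤ Real.exp (-3) := Real.exp_le_exp.2 (by linarith)
    have h2 : Real.exp (-3) ≤ 1 / 4 := by
      rw [Real.exp_neg, inv_eq_one_div]
      refine one_div_le_one_div_of_le (by norm_num) ?_
      have := Real.add_one_le_exp (3 : ℝ)
      linarith
    linarith
  have hQ : ∀ i, T * ((QQ c N (w i)).card : ℝ) ≤ 1 := by
    intro i
    have h1 := QQ_card c N (w i) _ ht1
    have h2 : ((univ.filter fun x => w i x ≠ 0).card : ℝ) ≤ Real.exp L := hT.supp i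
    have h3 : (d : ℝ) ^ σ ≤ Real.exp L * Real.exp L := by
      have h4 : 1 ≤ Real.exp L := Real.one_le_exp (by linarith)
      nlinarith
    calc T * ((QQ c N (w i)).card : ℝ)
        ≤ T * (Real.exp L * (Real.exp L * Real.exp L)) := by
          refine mul_le_mul_of_nonneg_left (h1.trans ?_) (Real.exp_pos _).le
          gcongr
      _ = 1 := by
          rw [hTdef, ← Real.exp_add, ← Real.exp_add, ← Real.exp_add]
          have : -(3 * L) + (L + (L + L)) = 0 := by ring
          rw [this, Real.exp_zero]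
  obtain ⟨f, hf⟩ := stmt_LLLI (LJ V P) 2 I T (fun i => QQ c N (w i))
    (fun _ => 2 * Real.exp (-d) * Real.exp 2) (fun i f => FF c N (w i) f ≤ ε) (by norm_num)
    (Real.exp_pos _).le hT4 (fun i => pack_single _ _ _ _ (QQ c N (w i)) (Finset.Subset.refl _)
      (fun f f' h => by simp only [FF_dep c N (w i) f f' h]) (by
        refine mul_le_mul (hfail i) (Real.exp_le_exp.2 ?_) (Real.exp_pos _).le (by positivity)
        have := hQ i
        linarith) (by positivity) (fun hQ0 f => by
        have h1 : FF c N (w i) f = 0 := by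
          unfold FF
          refine Finset.sum_eq_zero fun b _ => ?_
          rw [abs_eq_zero]
          refine Finset.sum_eq_zero fun x hx => ?_
          by_cases hwx : w i x = 0
          · rw [hwx, zero_mul]
          · have h1 : LJ.mk x b ∈ QQ c N (w i) := mem_filter.2 ⟨mem_univ _, hwx, hx⟩
            rw [hQ0] at h1
            exact absurd h1 (Finset.notMem_empty _)
        rw [h1]
        exact hε.le)) (fun y => by
      rw [Finset.sum_const, nsmul_eq_mul]
      have h1 : ((univ.filter fun i => y ∈ QQ c N (w i)).card : ℝ) ≤ Real.exp L := by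
        refine le_trans ?_ (hT.mult y.1)
        exact_mod_cast Finset.card_le_card fun i hi => by
          rw [mem_filter] at hi ⊢
          exact ⟨mem_univ _, (mem_filter.1 hi.2).2.1⟩
      calc ((univ.filter fun i => y ∈ QQ c N (w i)).card : ℝ) * (2 * Real.exp (-d) * Real.exp 2)
          ≤ Real.exp L * (Real.exp 1 * Real.exp (-d) * Real.exp 2) := by
            gcongr
            have := Real.add_one_le_exp (1 : ℝ)
            linarith
        _ = Real.exp (L + 3 - d) := by
            rw [← Real.exp_add, ← Real.exp_add, ← Real.exp_add]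
            congr 1
            ring
        _ ≤ T := Real.exp_le_exp.2 (by linarith))
  exact ⟨f, hf⟩

end labels

end KML

end Pool.Agent.Work.MP_db9399_cg.helper54
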